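import Mathlib

/-!
# Secret key agreement by public discussion from a finite source

`P : X → Y → ℝ` is the joint law of one copy of `(X, Y)`, and Eve sees `zf x y`.
-/

namespace Pool.Agent.SK

noncomputable section

open scoped Classical

/-- total weight of the pair of weight functions `f` (Alice) and `g` (Bob) -/
def Bt {X Y : Type} [Fintype X] [Fintype Y] (P : X → Y → ℝ) (f : X → ℝ) (g : Y → ℝ) : ℝ :=
  ∑ x, ∑ y, P x y * f x * g y

/-- the part of `Bt P f g` on the event that Eve's symbol is `z` -/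
def Bz {X Y Z : Type} [Fintype X] [Fintype Y] (P : X → Y → ℝ) (zf : X → Y → Z)
    (f : X → ℝ) (g : Y → ℝ) (z : Z) : ℝ :=
  ∑ x, ∑ y, if zf x y = z then P x y * f x * g y else 0

/-- independent copies indexed by `κ` -/
def pw {X Y : Type} (κ : Type) [Fintype κ] (P : X → Y → ℝ) : (κ → X) → (κ → Y) → ℝ :=
  fun x y => ∏ i, P (x i) (y i)

/-- Eve's word -/
def zw {X Y Z : Type} (κ : Type) (zf : X → Y → Z) : (κ → X) → (κ → Y) → (κ → Z) :=
  fun x y i => zf (x i) (y i)

/-- `P` is a probability distribution -/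
def IsP {X Y : Type} [Fintype X] [Fintype Y] (P : X → Y → ℝ) : Prop :=
  (∀ x y, 0 ≤ P x y) ∧ ∑ x, ∑ y, P x y = 1

/-- a binary output with erasure: `f0 x`, `f1 x` are the probabilities of the outputs `0`, `1`
given `x`; the output is an erasure with the remaining probability -/
def Tern {X : Type} (f0 f1 : X → ℝ) : Prop :=
  ∀ x, 0 ≤ f0 x ∧ 0 ≤ f1 x ∧ f0 x + f1 x ≤ 1

/-- the four-function (Bhattacharyya) inequality is violated -/
def TV {X Y Z : Type} [Fintype X] [Fintype Y] [Fintype Z] (P : X → Y → ℝ) (zf : X → Y → Z) :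
    Prop :=
  ∃ (f0 f1 : X → ℝ) (g0 g1 : Y → ℝ), Tern f0 f1 ∧ Tern g0 g1 ∧
    Real.sqrt (Bt P f0 g1 * Bt P f1 g0) <
      ∑ z, Real.sqrt (Bz P zf f0 g0 z * Bz P zf f1 g1 z)

/-- hidden agreement outweighs disagreement by a factor `1/ρ` -/
def Hid {X Y Z : Type} [Fintype X] [Fintype Y] [Fintype Z] (P : X → Y → ℝ) (zf : X → Y → Z)
    (ρ : ℝ) : Prop :=
  ∃ (f0 f1 : X → ℝ) (g0 g1 : Y → ℝ), Tern f0 f1 ∧ Tern g0 g1 ∧
    0 < ∑ z, min (Bz P zf f0 g0 z) (Bz P zf f1 g1 z) ∧
    Bt P f0 g1 + Bt P f1 g0 ≤ ρ * ∑ z, min (Bz P zf f0 g0 z) (Bz P zf f1 g1 z)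

/-- stochastic kernel -/
def Kern {X U : Type} [Fintype U] (κ : X → U → ℝ) : Prop :=
  (∀ x u, 0 ≤ κ x u) ∧ ∀ x, ∑ u, κ x u = 1

/-- the weight of `(x, y, u, v)` when `(x, y)` has law `P`, `u` is drawn from `κA x` and `v` from
`κB y` -/
def mu {X Y U V : Type} (P : X → Y → ℝ) (κA : X → U → ℝ) (κB : Y → V → ℝ)
    (ω : X × Y × U × V) : ℝ :=
  P ω.1 ω.2.1 * κA ω.1 ω.2.2.1 * κB ω.2.1 ω.2.2.2

/-- After exchanging flags, Alice and Bob hold bits that differ with probability at most `η`,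
and the bias of Alice's bit given what Eve sees (her symbol and both flags) is at most `β` on
average. -/
def NP2 {X Y Z : Type} [Fintype X] [Fintype Y] [Fintype Z] (P : X → Y → ℝ) (zf : X → Y → Z)
    (η β : ℝ) : Prop :=
  ∃ (U V FA FB : Type) (_ : Fintype U) (_ : Fintype V) (_ : Fintype FA) (_ : Fintype FB)
    (κA : X → U → ℝ) (κB : Y → V → ℝ) (flA : U → FA) (flB : V → FB)
    (bA : U → FB → ZMod 2) (bB : V → FA → ZMod 2),
    Kern κA ∧ Kern κB ∧
    (∑ ω : X × Y × U × V, if bA ω.2.2.1 (flB ω.2.2.2) ≠ bB ω.2.2.2 (flA ω.2.2.1) then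
      mu P κA κB ω else 0) ≤ η ∧
    (∑ o : Z × FA × FB, |∑ ω : X × Y × U × V,
      if (zf ω.1 ω.2.1, flA ω.2.2.1, flB ω.2.2.2) = o then
        (if bA ω.2.2.1 (flB ω.2.2.2) = 0 then (1 : ℝ) else -1) * mu P κA κB ω else 0|) ≤ β

/-! ## Protocols and the secret-key rate -/

/-- A protocol for secret-key agreement by public discussion, using `N` copies of the source.
`RA`, `RB` are the private randomness of Alice and Bob (laws `μA`, `μB`), `M` the alphabet of
the public messages; the messages number `0, 2, 4, …` are sent by Alice, the others by Bob, each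
as a function of the sender's word, private randomness and all earlier messages. -/
structure Protocol (X Y : Type) (N : ℕ) (K : Type) where
  RA : Type
  RB : Type
  M : Type
  [iRA : Fintype RA]
  [iRB : Fintype RB]
  [iM : Fintype M]
  μA : RA → ℝ
  μB : RB → ℝ
  μA_nonneg : ∀ r, 0 ≤ μA r
  μA_sum : ∑ r, μA r = 1
  μB_nonneg : ∀ r, 0 ≤ μB r
  μB_sum : ∑ r, μB r = 1
  rounds : ℕ
  msgA : (Fin N → X) → RA → List M → M
  msgB : (Fin N → Y) → RB → List M → M
  keyA : (Fin N → X) → RA → List M → K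
  keyB : (Fin N → Y) → RB → List M → K

attribute [instance] Protocol.iRA Protocol.iRB Protocol.iM

namespace Protocol

variable {X Y Z : Type} {N : ℕ} {K : Type}

/-- the list of the first `n` public messages -/
def tr (π : Protocol X Y N K) (x : Fin N → X) (r : π.RA) (y : Fin N → Y) (s : π.RB) :
    ℕ → List π.M
  | 0 => []
  | n + 1 => tr π x r y s n ++
      [if n % 2 = 0 then π.msgA x r (tr π x r y s n) else π.msgB y s (tr π x r y s n)]

/-- the complete public transcript -/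
def transcript (π : Protocol X Y N K) (x : Fin N → X) (r : π.RA) (y : Fin N → Y) (s : π.RB) :
    List π.M :=
  π.tr x r y s π.rounds

/-- probability of `(x, y, r, s)` -/
def wt (P : X → Y → ℝ) (π : Protocol X Y N K) (x : Fin N → X) (r : π.RA) (y : Fin N → Y)
    (s : π.RB) : ℝ :=
  (∏ i, P (x i) (y i)) * π.μA r * π.μB s

/-- Alice's key -/
def kA (π : Protocol X Y N K) (x : Fin N → X) (r : π.RA) (y : Fin N → Y) (s : π.RB) : K :=
  π.keyA x r (π.transcript x r y s)

/-- Bob's key -/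
def kB (π : Protocol X Y N K) (x : Fin N → X) (r : π.RA) (y : Fin N → Y) (s : π.RB) : K :=
  π.keyB y s (π.transcript x r y s)

variable [Fintype X] [Fintype Y]

/-- probability that the two keys differ -/
def err (P : X → Y → ℝ) (π : Protocol X Y N K) : ℝ :=
  ∑ x, ∑ r, ∑ y, ∑ s, if π.kA x r y s ≠ π.kB x r y s then π.wt P x r y s else 0

/-- Secrecy: no test `D` (with values in `[0,1]`) distinguishes, with advantage more than `ε`,
Alice's key together with the transcript and Eve's word from a uniform key that is independent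
of the transcript and Eve's word; in other words the joint law of (Alice's key, transcript,
`Z^N`) is within total variation distance `ε` of (uniform) × (law of transcript and `Z^N`). -/
def Secret [Fintype K] (P : X → Y → ℝ) (zf : X → Y → Z) (π : Protocol X Y N K) (ε : ℝ) : Prop :=
  ∀ D : K → List π.M → (Fin N → Z) → ℝ, (∀ k c z, 0 ≤ D k c z ∧ D k c z ≤ 1) →
    |∑ x, ∑ r, ∑ y, ∑ s, π.wt P x r y s *
      (D (π.kA x r y s) (π.transcript x r y s) (fun i => zf (x i) (y i)) -
        (∑ k, D k (π.transcript x r y s) (fun i => zf (x i) (y i))) / Fintype.card K)| ≤ ε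

end Protocol

/-- `R` (bits per copy) is an achievable secret-key rate of the source `(P, zf)`. -/
def Achievable {X Y Z : Type} [Fintype X] [Fintype Y] (P : X → Y → ℝ) (zf : X → Y → Z)
    (R : ℝ) : Prop :=
  ∀ ε : ℝ, 0 < ε → ∃ N₀ : ℕ, ∀ N : ℕ, N₀ ≤ N → ∃ (K : Type) (_ : Fintype K)
    (π : Protocol X Y N K), (2 : ℝ) ^ (R * N) ≤ Fintype.card K ∧ π.err P ≤ ε ∧
      π.Secret P zf ε

/-- the secret-key rate `S(X : Y ‖ Z)` -/
def secretKeyRate {X Y Z : Type} [Fintype X] [Fintype Y] (P : X → Y → ℝ) (zf : X → Y → Z) :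
    EReal :=
  ⨆ (R : ℝ) (_ : Achievable P zf R), (R : EReal)

/-! ## The distribution of the problem -/

/-- the weights `w(x,y)` -/
def w (a : ℝ) (x y : Fin 4) : ℝ :=
  if x.val < 2 ∧ y.val < 2 then 1 / 8
  else if 2 ≤ x.val ∧ 2 ≤ y.val then (if x = y then 1 / 4 else 0)
  else a

/-- the joint law of `(X, Y)` -/
def PE (a : ℝ) (x y : Fin 4) : ℝ := w a x y / (1 + 8 * a)

/-- Eve's symbol: a bit (`X + Y mod 2` resp. `X mod 2`) or the pair `(X, Y)` -/
def zE (x y : Fin 4) : Fin 2 ⊕ (Fin 4 × Fin 4) :=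
  if x.val < 2 ∧ y.val < 2 then Sum.inl ⟨(x.val + y.val) % 2, Nat.mod_lt _ two_pos⟩
  else if 2 ≤ x.val ∧ 2 ≤ y.val then Sum.inl ⟨x.val % 2, Nat.mod_lt _ two_pos⟩
  else Sum.inr (x, y)

/-- The property asked for in Q1, for one value of `a`: for every `N ≥ 1` and every pair of
binarizations (`p x`, `q y` are the probabilities of the output `1`) there is a channel `W` of
Eve's word, with countable output set, such that the two bits are conditionally independent
given its output. -/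
def Q1Property (a : ℝ) : Prop :=
  ∀ N : ℕ, 1 ≤ N → ∀ (p q : (Fin N → Fin 4) → ℝ), (∀ x, 0 ≤ p x ∧ p x ≤ 1) →
    (∀ y, 0 ≤ q y ∧ q y ≤ 1) →
    ∃ (ι : Type) (_ : Countable ι) (W : (Fin N → Fin 2 ⊕ (Fin 4 × Fin 4)) → ι → ℝ),
      (∀ z o, 0 ≤ W z o) ∧ (∀ z, HasSum (W z) 1) ∧
      ∀ o : ι,
        (∑ z, W z o * Bz (pw (Fin N) (PE a)) (zw (Fin N) zE) p q z) *
            (∑ z, W z o * Bz (pw (Fin N) (PE a)) (zw (Fin N) zE) (fun _ => 1) (fun _ => 1) z) =
          (∑ z, W z o * Bz (pw (Fin N) (PE a)) (zw (Fin N) zE) p (fun _ => 1) z) *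
            (∑ z, W z o * Bz (pw (Fin N) (PE a)) (zw (Fin N) zE) (fun _ => 1) q z)

end

end Pool.Agent.SK
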